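import Pool.Agent.W423.NC.Defs

set_option autoImplicit false

/-! Project NC: the limit for the extended system (tuple without coordinates). -/

namespace Pool.Agent.W67.NC

open MvPolynomial Pool.Agent.H628R4.TZ Pool.Agent.H628R4.TP Pool.Agent.W425.SM
open MeasureTheory Set Filter Topology
open Pool.Agent.W423.MV
open Pool.Agent.W655.SM (cone_li pos_meas)
open Pool.Agent.W349.SG (cone_liQ)
open Pool.Agent.W423.MG Pool.Agent.W423.NC

variable {r N P : ℕ}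

/-- the extended set of minimal terms -/
noncomputable def mH (g : Fin r → Fin (P+1)) (v : Fin r → Fin N → ℕ)
    (σ : Finset (Fin N → ℕ)) : Finset (Fin (r+1)) := Jh (minSetG g v σ)

lemma zero_mem_Jh (J : Finset (Fin r)) : (0 : Fin (r+1)) ∈ Jh J := by
  unfold Jh
  exact Finset.mem_insert_self _ _

lemma succ_mem_Jh (J : Finset (Fin r)) (j : Fin r) : j.succ ∈ Jh J ↔ j ∈ J := by
  unfold Jh
  rw [Finset.mem_insert, Finset.mem_map]
  constructor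
  · rintro (h | ⟨j', hj', h⟩)
    · exact absurd h (Fin.succ_ne_zero j)
    · have : j' = j := Fin.succ_injective _ h
      rwa [← this]
  · intro h
    exact Or.inr ⟨j, h, rfl⟩

lemma Jh_mono {J J' : Finset (Fin r)} (h : J ⊆ J') : Jh J ⊆ Jh J' := by
  intro l hl
  rcases Fin.eq_zero_or_eq_succ l with h0 | ⟨j, hj⟩
  · rw [h0]; exact zero_mem_Jh _
  · rw [hj, succ_mem_Jh] at hl ⊢
    exact h hl

lemma card_Jh (J : Finset (Fin r)) : (Jh J).card = J.card + 1 := by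
  unfold Jh
  rw [Finset.card_insert_of_notMem, Finset.card_map]
  rw [Finset.mem_map]
  rintro ⟨j, _, h⟩
  exact Fin.succ_ne_zero j h

/-! ### the forms -/

lemma Ah_zero (g : Fin r → Fin (P+1)) (v : Fin r → Fin N → ℕ) (l : Fin (r+1)) :
    Ah g v l 0 = -1 := rfl

lemma Ah_tc0 (g : Fin r → Fin (P+1)) (v : Fin r → Fin N → ℕ) (k : Fin (P+1)) :
    Ah g v 0 (tc k) = 1 := by
  unfold Ah tc vh
  rw [Fin.cons_succ, Fin.cons_zero, Fin.append_left]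
  simp

lemma Ah_wc0 (g : Fin r → Fin (P+1)) (v : Fin r → Fin N → ℕ) (i : Fin N) :
    Ah g v 0 (wco i) = 0 := by
  unfold Ah wco vh
  rw [Fin.cons_succ, Fin.cons_zero, Fin.append_right]
  simp

lemma Ah_tcs (g : Fin r → Fin (P+1)) (v : Fin r → Fin N → ℕ) (j : Fin r) (k : Fin (P+1)) :
    Ah g v j.succ (tc k) = if g j = k then 0 else 1 := by
  unfold Ah tc vh
  rw [Fin.cons_succ, Fin.cons_succ, Fin.append_left]
  split_ifs <;> simp

lemma Ah_wcs (g : Fin r → Fin (P+1)) (v : Fin r → Fin N → ℕ) (j : Fin r) (i : Fin N) :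
    Ah g v j.succ (wco i) = (v j i : ℤ) := by
  unfold Ah wco vh
  rw [Fin.cons_succ, Fin.cons_succ, Fin.append_right]

lemma yA_0 (g : Fin r → Fin (P+1)) (v : Fin r → Fin N → ℕ) (x : Fin (P+1+N+1) → ℝ) :
    yA (Ah g v) x 0 = ∑ k, x (tc k) - x 0 := by
  unfold yA
  rw [sum_coords]
  simp only [Ah_zero, Ah_tc0, Ah_wc0]
  push_cast
  simp
  ring

lemma yA_s (g : Fin r → Fin (P+1)) (v : Fin r → Fin N → ℕ) (x : Fin (P+1+N+1) → ℝ)
    (j : Fin r) : yA (Ah g v) x j.succ = we v x j - x (tc (g j)) + yA (Ah g v) x 0 := by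
  rw [yA_0]
  unfold yA we
  rw [sum_coords]
  simp only [Ah_zero, Ah_tcs, Ah_wcs]
  have h1 : ∑ k : Fin (P+1), (((if g j = k then (0:ℤ) else 1) : ℤ) : ℝ) * x (tc k) =
      ∑ k : Fin (P+1), x (tc k) - x (tc (g j)) := by
    have h2 : ∀ k : Fin (P+1), (((if g j = k then (0:ℤ) else 1) : ℤ) : ℝ) * x (tc k) =
        x (tc k) - if g j = k then x (tc k) else 0 := by
      intro k
      split_ifs <;> simp
    simp only [h2]
    rw [Finset.sum_sub_distrib, Finset.sum_ite_eq]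
    simp
  rw [h1]
  push_cast
  ring

/-- `ρ̂` -/
noncomputable def rhoH (g : Fin r → Fin (P+1)) (v : Fin r → Fin N → ℕ) (ρ : Fin N → ℕ) :
    Fin (P+1+N+1) → ℤ :=
  Fin.cons (∑ k, (ordG g v k ρ : ℤ)) (Fin.append
    (fun k : Fin (P+1) => (ordG g v k ρ : ℤ)) (fun i => (ρ i : ℤ)))

/-- real version -/
noncomputable def rhoHR (g : Fin r → Fin (P+1)) (v : Fin r → Fin N → ℕ) (ρ : Fin N → ℕ) :
    Fin (P+1+N+1) → ℝ := fun l => (rhoH g v ρ l : ℝ)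

lemma rhoH_zero (g : Fin r → Fin (P+1)) (v : Fin r → Fin N → ℕ) (ρ : Fin N → ℕ) :
    rhoH g v ρ 0 = ∑ k, (ordG g v k ρ : ℤ) := rfl

lemma rhoH_tc (g : Fin r → Fin (P+1)) (v : Fin r → Fin N → ℕ) (ρ : Fin N → ℕ) (k : Fin (P+1)) :
    rhoH g v ρ (tc k) = (ordG g v k ρ : ℤ) := by
  unfold rhoH tc
  rw [Fin.cons_succ, Fin.append_left]

lemma rhoH_wc (g : Fin r → Fin (P+1)) (v : Fin r → Fin N → ℕ) (ρ : Fin N → ℕ) (i : Fin N) :
    rhoH g v ρ (wco i) = (ρ i : ℤ) := by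
  unfold rhoH wco
  rw [Fin.cons_succ, Fin.append_right]

lemma we_rhoH (g : Fin r → Fin (P+1)) (v : Fin r → Fin N → ℕ) (ρ : Fin N → ℕ) (j : Fin r) :
    we v (rhoHR g v ρ) j = ((∑ l, ρ l * v j l : ℕ) : ℝ) := by
  unfold we rhoHR
  simp only [rhoH_wc]
  push_cast
  exact Finset.sum_congr rfl fun i _ => mul_comm _ _

lemma yA_rho0 (g : Fin r → Fin (P+1)) (v : Fin r → Fin N → ℕ) (ρ : Fin N → ℕ) :
    yA (Ah g v) (rhoHR g v ρ) 0 = 0 := by
  rw [yA_0]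
  unfold rhoHR
  simp only [rhoH_tc, rhoH_zero]
  push_cast
  ring

lemma yA_rhos (g : Fin r → Fin (P+1)) (v : Fin r → Fin N → ℕ) (ρ : Fin N → ℕ) (j : Fin r) :
    yA (Ah g v) (rhoHR g v ρ) j.succ =
      ((∑ l, ρ l * v j l : ℕ) : ℝ) - (ordG g v (g j) ρ : ℝ) := by
  rw [yA_s, yA_rho0, we_rhoH, add_zero]
  unfold rhoHR
  rw [rhoH_tc]
  simp

lemma mem_mH (g : Fin r → Fin (P+1)) (v : Fin r → Fin N → ℕ) (σ : Finset (Fin N → ℕ))
    (l : Fin (r+1)) : l ∈ mH g v σ ↔ ∀ ρ ∈ σ, yA (Ah g v) (rhoHR g v ρ) l = 0 := by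
  rcases Fin.eq_zero_or_eq_succ l with h0 | ⟨j, hj⟩
  · subst h0
    exact iff_of_true (zero_mem_Jh _) fun ρ _ => yA_rho0 g v ρ
  · subst hj
    unfold mH
    rw [succ_mem_Jh, mem_minSetG]
    refine forall₂_congr fun ρ _ => ?_
    rw [yA_rhos, sub_eq_zero]
    exact_mod_cast Iff.rfl

lemma clH_sub (g : Fin r → Fin (P+1)) (v : Fin r → Fin N → ℕ) (J : Finset (Fin (r+1)))
    (σ : Finset (Fin N → ℕ)) (hJ : J ⊆ mH g v σ) : clA (Ah g v) J ⊆ mH g v σ := by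
  intro l hl
  obtain ⟨c, hc⟩ := (mem_clA _ _ _).1 hl
  rw [mem_mH]
  intro ρ hρ
  exact combA_zero _ hc _ fun j hj => (mem_mH g v σ j).1 (hJ hj) ρ hρ

lemma mH_sub_cl (g : Fin r → Fin (P+1)) (v : Fin r → Fin N → ℕ) (R : SmoothFan N)
    (J : Finset (Fin (r+1))) (hI : IndA (Ah g v) J)
    (σ : Finset (Fin N → ℕ)) (hσ : σ ∈ R.cones) (hJ : J ⊆ mH g v σ)
    (hcard : σ.card + J.card = P + 1 + N + 1) : mH g v σ ⊆ clA (Ah g v) J := by
  classical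
  intro l hl
  rw [mem_clA]
  set qh : σ → Fin (P+1+N+1) → ℚ := fun ρ i => (rhoH g v ρ i : ℚ) with hqh
  set U : Submodule ℚ (Fin (P+1+N+1) → ℚ) := Submodule.span ℚ (Set.range qh) with hU
  have hqli : LinearIndependent ℚ qh := by
    refine LinearIndependent.of_comp
      (LinearMap.funLeft ℚ ℚ (wco : Fin N → Fin (P+1+N+1))) ?_
    have h1 : (LinearMap.funLeft ℚ ℚ (wco : Fin N → Fin (P+1+N+1))) ∘ qh =
        (fun ρ : σ => (fun l => ((ρ : Fin N → ℕ) l : ℚ) : Fin N → ℚ)) := by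
      funext ρ l
      show ((rhoH g v ρ (wco l) : ℤ) : ℚ) = _
      rw [rhoH_wc]
      simp
    rw [h1]
    exact cone_liQ R σ hσ
  have hUr : Module.finrank ℚ U = σ.card := by
    rw [hU, finrank_span_eq_card hqli, Fintype.card_coe]
  have hWr : Module.finrank ℚ U.dualAnnihilator = J.card := by
    have h := Subspace.finrank_add_finrank_dualAnnihilator_eq U
    rw [hUr, Module.finrank_fin_fun] at h
    omega
  have hmem : ∀ j ∈ mH g v σ, yQ (Ah g v) j ∈ U.dualAnnihilator := by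
    intro j hj
    rw [Submodule.mem_dualAnnihilator]
    intro w hw
    have hle : U ≤ LinearMap.ker (yQ (Ah g v) j) := by
      rw [hU, Submodule.span_le]
      rintro _ ⟨ρ, rfl⟩
      show yQ (Ah g v) j (qh ρ) = 0
      have h1 := (mem_mH g v σ j).1 hj ρ ρ.2
      have h2 : ((yQ (Ah g v) j (qh ρ) : ℚ) : ℝ) = 0 := by
        rw [yQ_apply, hqh]
        unfold yA rhoHR at h1
        push_cast
        exact h1
      exact_mod_cast h2
    exact hle hw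
  have hli : LinearIndependent ℚ (fun j : J => yQ (Ah g v) (j : Fin (r+1))) := by
    rw [Fintype.linearIndependent_iff]
    intro c hc
    have h1 := (Fintype.linearIndependent_iff.1 hI) c
    refine h1 ?_
    funext i
    have h := congrArg (fun F : Module.Dual ℚ (Fin (P+1+N+1) → ℚ) => F (Pi.single i 1)) hc
    simp only [LinearMap.sum_apply, LinearMap.smul_apply, yQ_apply, LinearMap.zero_apply,
      smul_eq_mul] at h
    simp only [Finset.sum_apply, Pi.smul_apply, smul_eq_mul, Pi.zero_apply]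
    rw [← h]
    refine Finset.sum_congr rfl fun j _ => ?_
    congr 1
    rw [Finset.sum_eq_single i]
    · simp
    · intro b _ hb
      rw [Pi.single_eq_of_ne hb, mul_zero]
    · intro h'; exact absurd (Finset.mem_univ _) h'
  let b : J → U.dualAnnihilator := fun j => ⟨yQ (Ah g v) (j : Fin (r+1)), hmem j (hJ j.2)⟩
  have hbli : LinearIndependent ℚ b := by
    refine LinearIndependent.of_comp (Submodule.subtype _) ?_
    exact hli
  have hspan := hbli.span_eq_top_of_card_eq_finrank' (by rw [hWr, Fintype.card_coe])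
  have hlm : (⟨yQ (Ah g v) l, hmem l hl⟩ : U.dualAnnihilator) ∈
      Submodule.span ℚ (Set.range b) := by
    rw [hspan]; trivial
  obtain ⟨c, hc⟩ := (Submodule.mem_span_range_iff_exists_fun ℚ).1 hlm
  have hc' : ∑ j, c j • yQ (Ah g v) (j : Fin (r+1)) = yQ (Ah g v) l := by
    have := congrArg (Submodule.subtype _) hc
    rw [map_sum] at this
    exact this
  refine ⟨fun j => if h : j ∈ J then c ⟨j, h⟩ else 0, fun j hj => by simp [hj], fun i => ?_⟩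
  have h3 := LinearMap.congr_fun hc' (fun k => if k = i then 1 else 0)
  simp only [LinearMap.sum_apply, LinearMap.smul_apply, yQ_apply, mul_ite, mul_one, mul_zero,
    Finset.sum_ite_eq', Finset.mem_univ, if_true, smul_eq_mul] at h3
  rw [← h3]
  exact Pool.Agent.W327.SG.sum_ext c (fun j => (Ah g v j i : ℚ))

/-! ### The region of a cone -/

section reg

variable (g : Fin r → Fin (P+1)) (v : Fin r → Fin N → ℕ) {J : Finset (Fin (r+1))} {d : ℕ}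
  (Θ : ((J → ℝ) × (Fin d → ℝ)) ≃ₗ[ℝ] (Fin (P+1+N+1) → ℝ))

/-- the region of the cone `σ` -/
noncomputable def rgH (σ : Finset (Fin N → ℕ)) : Set (Fin d → ℝ) :=
  regA Θ (fun ρ : σ => rhoH g v (ρ : Fin N → ℕ))

lemma rgH_iff (σ : Finset (Fin N → ℕ)) (a : Fin d → ℝ) :
    a ∈ rgH g v Θ σ ↔ ∃ c : σ → ℝ, (∀ ρ, 0 < c ρ) ∧
      Θ (0, a) = ∑ ρ : σ, c ρ • rhoHR g v (ρ : Fin N → ℕ) := Iff.rfl

/-- coordinates of the ray -/
noncomputable def arH (ρ : Fin N → ℕ) : Fin d → ℝ := (Θ.symm (rhoHR g v ρ)).2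

lemma arH_spec {κ : ℝ} (hA : AdaptA (Ah g v) J d Θ κ)
    (σ : Finset (Fin N → ℕ)) (hJ : J ⊆ mH g v σ) (ρ : Fin N → ℕ) (hρ : ρ ∈ σ) :
    Θ (0, arH g v Θ ρ) = rhoHR g v ρ := by
  have h1 : Θ.symm (rhoHR g v ρ) = (0, arH g v Θ ρ) := by
    refine Prod.ext ?_ rfl
    funext j
    have h2 := hA.y (Θ.symm (rhoHR g v ρ)).1 (Θ.symm (rhoHR g v ρ)).2 j
    have h3 : Θ ((Θ.symm (rhoHR g v ρ)).1, (Θ.symm (rhoHR g v ρ)).2) = rhoHR g v ρ :=
      Θ.apply_symm_apply _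
    rw [h3, (mem_mH g v σ j).1 (hJ j.2) ρ hρ] at h2
    rw [← h2]
    simp
  rw [← h1, Θ.apply_symm_apply]

/-- the linear map of a cone -/
noncomputable def cLH (σ : Finset (Fin N → ℕ)) : (σ → ℝ) →ₗ[ℝ] (Fin d → ℝ) :=
  Fintype.linearCombination ℝ (fun ρ : σ => arH g v Θ ρ)

lemma cLH_apply (σ : Finset (Fin N → ℕ)) (c : σ → ℝ) :
    cLH g v Θ σ c = ∑ ρ : σ, c ρ • arH g v Θ ρ := by
  rw [cLH, Fintype.linearCombination_apply]

lemma cLH_Θ {κ : ℝ} (hA : AdaptA (Ah g v) J d Θ κ)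
    (σ : Finset (Fin N → ℕ)) (hJ : J ⊆ mH g v σ) (c : σ → ℝ) :
    Θ (0, cLH g v Θ σ c) = ∑ ρ : σ, c ρ • rhoHR g v ρ := by
  have h1 : ((0 : J → ℝ), cLH g v Θ σ c) =
      ∑ ρ : σ, c ρ • ((0 : J → ℝ), arH g v Θ (ρ : Fin N → ℕ)) := by
    refine Prod.ext ?_ ?_
    · simp [Prod.fst_sum]
    · rw [Prod.snd_sum, cLH_apply]
      exact Finset.sum_congr rfl fun ρ _ => rfl
  rw [h1, map_sum]
  refine Finset.sum_congr rfl fun ρ _ => ?_
  rw [map_smul, arH_spec g v Θ hA σ hJ ρ ρ.2]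

lemma arH_li (R : SmoothFan N) {κ : ℝ} (hA : AdaptA (Ah g v) J d Θ κ)
    (σ : Finset (Fin N → ℕ)) (hσ : σ ∈ R.cones) (hJ : J ⊆ mH g v σ) :
    LinearIndependent ℝ (fun ρ : σ => arH g v Θ (ρ : Fin N → ℕ)) := by
  let T : (Fin d → ℝ) →ₗ[ℝ] (Fin N → ℝ) :=
    (LinearMap.funLeft ℝ ℝ (wco : Fin N → Fin (P+1+N+1))) ∘ₗ Θ.toLinearMap ∘ₗ
      (LinearMap.inr ℝ (J → ℝ) (Fin d → ℝ))
  refine LinearIndependent.of_comp T ?_
  have h1 : (T ∘ fun ρ : σ => arH g v Θ (ρ : Fin N → ℕ)) =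
      (fun ρ : σ => (fun l => ((ρ : Fin N → ℕ) l : ℝ) : Fin N → ℝ)) := by
    funext ρ l
    show Θ (0, arH g v Θ (ρ : Fin N → ℕ)) (wco l) = _
    rw [arH_spec g v Θ hA σ hJ ρ ρ.2]
    unfold rhoHR
    rw [rhoH_wc]
    simp
  rw [h1]
  exact cone_li R σ hσ

lemma cardH_le (R : SmoothFan N) {κ : ℝ} (hA : AdaptA (Ah g v) J d Θ κ)
    (σ : Finset (Fin N → ℕ)) (hσ : σ ∈ R.cones) (hJ : J ⊆ mH g v σ) : σ.card ≤ d := by
  have h := (arH_li g v Θ R hA σ hσ hJ).fintype_card_le_finrank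
  simpa using h

lemma cLH_inj (R : SmoothFan N) {κ : ℝ} (hA : AdaptA (Ah g v) J d Θ κ)
    (σ : Finset (Fin N → ℕ)) (hσ : σ ∈ R.cones) (hJ : J ⊆ mH g v σ) :
    Function.Injective (cLH g v Θ σ) :=
  (arH_li g v Θ R hA σ hσ hJ).fintypeLinearCombination_injective

lemma rgH_eq {κ : ℝ} (hA : AdaptA (Ah g v) J d Θ κ)
    (σ : Finset (Fin N → ℕ)) (hJ : J ⊆ mH g v σ) :
    rgH g v Θ σ = cLH g v Θ σ '' {c | ∀ ρ, 0 < c ρ} := by
  classical
  ext a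
  constructor
  · rintro ⟨c, hc, h⟩
    refine ⟨c, hc, ?_⟩
    have h1 : Θ (0, a) = Θ (0, cLH g v Θ σ c) := by
      rw [cLH_Θ g v Θ hA σ hJ, h]
      rfl
    have h2 := Θ.injective h1
    exact (congrArg Prod.snd h2).symm
  · rintro ⟨c, hc, rfl⟩
    exact ⟨c, hc, cLH_Θ g v Θ hA σ hJ c⟩

lemma rgH_meas (R : SmoothFan N) {κ : ℝ} (hA : AdaptA (Ah g v) J d Θ κ)
    (σ : Finset (Fin N → ℕ)) (hσ : σ ∈ R.cones) (hJ : J ⊆ mH g v σ) :
    MeasurableSet (rgH g v Θ σ) := by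
  rw [rgH_eq g v Θ hA σ hJ]
  exact (pos_meas σ).image_of_continuousOn_injOn
    (LinearMap.continuous_of_finiteDimensional _).continuousOn (cLH_inj g v Θ R hA σ hσ hJ).injOn

lemma rgH_null {κ : ℝ} (hA : AdaptA (Ah g v) J d Θ κ)
    (σ : Finset (Fin N → ℕ)) (hJ : J ⊆ mH g v σ) (hd : σ.card < d) :
    volume (rgH g v Θ σ) = 0 := by
  rw [rgH_eq g v Θ hA σ hJ]
  have h1 : LinearMap.range (cLH g v Θ σ) ≠ ⊤ := by
    intro h
    have h2 := LinearMap.finrank_range_le (cLH g v Θ σ)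
    rw [h, finrank_top] at h2
    simp at h2
    omega
  refine measure_mono_null ?_ (Measure.addHaar_submodule volume _ h1)
  rintro _ ⟨c, _, rfl⟩
  exact ⟨c, rfl⟩

lemma rgH_coord (σ : Finset (Fin N → ℕ))
    (a : Fin d → ℝ) (ha : a ∈ rgH g v Θ σ) : ∃ c : (Fin N → ℕ) → ℝ, (∀ ρ ∈ σ, 0 < c ρ) ∧
      Θ (0, a) = ∑ ρ ∈ σ, c ρ • rhoHR g v ρ := by
  classical
  obtain ⟨c, hc, h⟩ := (rgH_iff g v Θ σ a).1 ha
  refine ⟨fun ρ => if h : ρ ∈ σ then c ⟨ρ, h⟩ else 0, fun ρ hρ => ?_, ?_⟩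
  · simp only [hρ, dif_pos]
    exact hc _
  · rw [h, ← Finset.sum_coe_sort σ]
    refine Finset.sum_congr rfl fun ρ _ => ?_
    simp

lemma rgH_wc (σ : Finset (Fin N → ℕ)) (c : (Fin N → ℕ) → ℝ) (x : Fin (P+1+N+1) → ℝ)
    (h : x = ∑ ρ ∈ σ, c ρ • rhoHR g v ρ) (l : Fin N) :
    x (wco l) = ∑ ρ ∈ σ, c ρ * (ρ l : ℝ) := by
  rw [h, Finset.sum_apply]
  refine Finset.sum_congr rfl fun ρ _ => ?_
  rw [Pi.smul_apply, smul_eq_mul]
  unfold rhoHR
  rw [rhoH_wc]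
  simp

lemma rgH_tc (σ : Finset (Fin N → ℕ)) (c : (Fin N → ℕ) → ℝ) (x : Fin (P+1+N+1) → ℝ)
    (h : x = ∑ ρ ∈ σ, c ρ • rhoHR g v ρ) (k : Fin (P+1)) :
    x (tc k) = ∑ ρ ∈ σ, c ρ * (ordG g v k ρ : ℝ) := by
  rw [h, Finset.sum_apply]
  refine Finset.sum_congr rfl fun ρ _ => ?_
  rw [Pi.smul_apply, smul_eq_mul]
  unfold rhoHR
  rw [rhoH_tc]
  simp

lemma rgH_0 (σ : Finset (Fin N → ℕ)) (c : (Fin N → ℕ) → ℝ) (x : Fin (P+1+N+1) → ℝ)
    (h : x = ∑ ρ ∈ σ, c ρ • rhoHR g v ρ) :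
    x 0 = ∑ ρ ∈ σ, c ρ * ∑ k, (ordG g v k ρ : ℝ) := by
  rw [h, Finset.sum_apply]
  refine Finset.sum_congr rfl fun ρ _ => ?_
  rw [Pi.smul_apply, smul_eq_mul]
  unfold rhoHR
  rw [rhoH_zero]
  push_cast
  rfl

lemma rgH_disj (R : SmoothFan N) (σ σ' : Finset (Fin N → ℕ))
    (hσ : σ ∈ R.cones) (hσ' : σ' ∈ R.cones) (a : Fin d → ℝ) (ha : a ∈ rgH g v Θ σ)
    (ha' : a ∈ rgH g v Θ σ') : σ = σ' := by
  obtain ⟨c, hc, h⟩ := rgH_coord g v Θ σ a ha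
  obtain ⟨c', hc', h'⟩ := rgH_coord g v Θ σ' a ha'
  obtain ⟨τ, _, hτ⟩ := R.partition (fun l => Θ (0, a) (wco l)) (fun l => by
    show 0 ≤ Θ (0, a) (wco l)
    rw [rgH_wc g v σ c _ h]
    exact Finset.sum_nonneg fun ρ hρ => mul_nonneg (hc ρ hρ).le (Nat.cast_nonneg _))
  rw [hτ σ ⟨hσ, c, hc, rgH_wc g v σ c _ h⟩, hτ σ' ⟨hσ', c', hc', rgH_wc g v σ' c' _ h'⟩]

end reg

/-- some order is not zero -/
def NZ (g : Fin r → Fin (P+1)) (v : Fin r → Fin N → ℕ) (σ : Finset (Fin N → ℕ)) : Prop :=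
  ∃ ρ ∈ σ, ∃ k, ordG g v k ρ ≠ 0

/-- the cones which contribute -/
def PCH (g : Fin r → Fin (P+1)) (v : Fin r → Fin N → ℕ) (J : Finset (Fin (r+1)))
    (σ : Finset (Fin N → ℕ)) : Prop :=
  mH g v σ = clA (Ah g v) J ∧ NZ g v σ

lemma PCH.sub {g : Fin r → Fin (P+1)} {v : Fin r → Fin N → ℕ} {J : Finset (Fin (r+1))}
    {σ : Finset (Fin N → ℕ)} (h : PCH g v J σ) : J ⊆ mH g v σ := by
  rw [h.1]; exact sub_clA _ J

lemma bh_zero (K α0 : ℝ) : bh (N := N) (P := P) K α0 0 = -K := rfl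

lemma bh_tc (K α0 : ℝ) (k : Fin (P+1)) : bh (N := N) K α0 (tc k) = α0 := by
  unfold bh tc
  rw [Fin.cons_succ, Fin.append_left]

lemma bh_wc (K α0 : ℝ) (i : Fin N) : bh (P := P) K α0 (wco i) = 1 := by
  unfold bh wco
  rw [Fin.cons_succ, Fin.append_right]

section cond

variable (g : Fin r → Fin (P+1)) (v : Fin r → Fin N → ℕ) {J : Finset (Fin (r+1))} {d : ℕ}
  (Θ : ((J → ℝ) × (Fin d → ℝ)) ≃ₗ[ℝ] (Fin (P+1+N+1) → ℝ))

lemma condH_of_rg (K α0 : ℝ) (hα : 0 < α0)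
    (σ : Finset (Fin N → ℕ)) (hP : PCH g v J σ) (a : Fin d → ℝ)
    (ha : a ∈ rgH g v Θ σ) : CondA (Ah g v) (bh K α0) J (Θ (0, a)) := by
  obtain ⟨c, hc, h⟩ := rgH_coord g v Θ σ a ha
  obtain ⟨hJ, ρ0, hρ0, k0, hk0⟩ := hP
  set x := Θ (0, a) with hx
  have hx0 := rgH_0 g v σ c x h
  have hxt := rgH_tc g v σ c x h
  have hy0 : yA (Ah g v) x 0 = 0 := by
    rw [yA_0, hx0]
    simp only [hxt, Finset.mul_sum]
    rw [Finset.sum_comm, sub_self]
  refine ⟨fun i => ?_, fun l hl => ?_⟩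
  · refine coords_cases (p := fun i => 0 < x i ∨ x i = 0 ∧ 0 < bh K α0 i) ?_ ?_ ?_ i
    · left
      rw [hx0]
      refine Finset.sum_pos' (fun ρ hρ => mul_nonneg (hc ρ hρ).le
        (Finset.sum_nonneg fun k _ => Nat.cast_nonneg _)) ⟨ρ0, hρ0, mul_pos (hc ρ0 hρ0) ?_⟩
      exact Finset.sum_pos' (fun k _ => Nat.cast_nonneg _)
        ⟨k0, Finset.mem_univ _, by exact_mod_cast Nat.pos_of_ne_zero hk0⟩
    · intro k
      have h3 : 0 ≤ x (tc k) := by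
        rw [hxt]
        exact Finset.sum_nonneg fun ρ hρ => mul_nonneg (hc ρ hρ).le (Nat.cast_nonneg _)
      rcases h3.lt_or_eq with h4 | h4
      · exact Or.inl h4
      · exact Or.inr ⟨h4.symm, by rw [bh_tc]; exact hα⟩
    · intro i
      have h3 : 0 ≤ x (wco i) := by
        rw [rgH_wc g v σ c x h]
        exact Finset.sum_nonneg fun ρ hρ => mul_nonneg (hc ρ hρ).le (Nat.cast_nonneg _)
      rcases h3.lt_or_eq with h4 | h4
      · exact Or.inl h4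
      · exact Or.inr ⟨h4.symm, by rw [bh_wc]; exact one_pos⟩
  · have hl' : l ∉ mH g v σ := by
      rw [hJ, mem_clA]
      rintro ⟨c, hc⟩
      exact hl c hc
    rcases Fin.eq_zero_or_eq_succ l with h0 | ⟨j, hj⟩
    · subst h0
      exact absurd (zero_mem_Jh _) hl'
    · subst hj
      rw [yA_s, hy0, add_zero, we_sum v σ c x (rgH_wc g v σ c x h), hxt, ← Finset.sum_sub_distrib]
      unfold mH at hl'
      rw [succ_mem_Jh, mem_minSetG] at hl'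
      push Not at hl'
      obtain ⟨ρ1, hρ1, h3⟩ := hl'
      refine Finset.sum_pos' (fun ρ hρ => ?_) ⟨ρ1, hρ1, ?_⟩
      · rw [← mul_sub]
        refine mul_nonneg (hc ρ hρ).le (sub_nonneg.2 ?_)
        exact_mod_cast ordG_le g v ρ j
      · rw [← mul_sub]
        refine mul_pos (hc ρ1 hρ1) (sub_pos.2 ?_)
        exact_mod_cast lt_of_le_of_ne (ordG_le g v ρ1 j) (Ne.symm h3)

lemma rgH_of_cond (R : SmoothFan N) (hPr : PrincipalG g v R) (h0J : (0 : Fin (r+1)) ∈ J)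
    (hJ : ∀ k, ∃ j, j.succ ∈ J ∧ g j = k) {κ : ℝ} (hA : AdaptA (Ah g v) J d Θ κ)
    (K α0 : ℝ) (hK : 0 < K)
    (a : Fin d → ℝ) (h : CondA (Ah g v) (bh K α0) J (Θ (0, a))) :
    ∃ σ ∈ R.cones, PCH g v J σ ∧ a ∈ rgH g v Θ σ := by
  obtain ⟨h1, h2⟩ := h
  set x := Θ (0, a) with hx
  have hx0 : 0 < x 0 := by
    rcases h1 0 with h | h
    · exact h
    · have := h.2
      rw [bh_zero] at this
      linarith
  have hnn : ∀ l : Fin N, 0 ≤ x (wco l) := by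
    intro l
    rcases h1 (wco l) with h | h
    · exact h.le
    · exact h.1.symm.le
  obtain ⟨σ, ⟨hσ, y, hy, hw⟩, -⟩ := R.partition (fun l => x (wco l)) hnn
  have hw' : ∀ l : Fin N, x (wco l) = ∑ ρ ∈ σ, y ρ * (ρ l : ℝ) := hw
  choose j1 hj1 using hPr σ hσ
  have hord : ∀ k, ∀ ρ ∈ σ, ordG g v k ρ = ∑ l, ρ l * v (j1 k) l := fun k ρ hρ =>
    ordG_eq g v k ρ (j1 k) (hj1 k).1 ((hj1 k).2 ρ hρ)
  have hf := we_sum (P := P+1) v σ y x hw'
  have hge : ∀ j, ∑ ρ ∈ σ, y ρ * (ordG g v (g j) ρ : ℝ) ≤ we v x j := by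
    intro j
    rw [hf j]
    refine Finset.sum_le_sum fun ρ hρ => mul_le_mul_of_nonneg_left ?_ (hy ρ hρ).le
    exact_mod_cast ordG_le g v ρ j
  have heq : ∀ j, j ∈ minSetG g v σ ↔ we v x j = ∑ ρ ∈ σ, y ρ * (ordG g v (g j) ρ : ℝ) := by
    intro j
    rw [hf j, mem_minSetG]
    constructor
    · intro h
      exact Finset.sum_congr rfl fun ρ hρ => by rw [h ρ hρ]
    · intro h ρ hρ
      have h3 : ∑ ρ ∈ σ, y ρ * (((∑ l, ρ l * v j l : ℕ) : ℝ) - (ordG g v (g j) ρ : ℝ)) = 0 := by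
        simp only [mul_sub, Finset.sum_sub_distrib]
        rw [h, sub_self]
      have h4 := (Finset.sum_eq_zero_iff_of_nonneg (fun ρ hρ => mul_nonneg (hy ρ hρ).le
        (sub_nonneg.2 (by exact_mod_cast ordG_le g v ρ j)))).1 h3 ρ hρ
      rcases mul_eq_zero.1 h4 with h5 | h5
      · exact absurd h5 (hy ρ hρ).ne'
      · have h6 := sub_eq_zero.1 h5
        exact_mod_cast h6
  have hyJ : ∀ j ∈ J, yA (Ah g v) x j = 0 := by
    intro j hj
    have h3 := hA.y 0 a ⟨j, hj⟩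
    simpa using h3
  have hy0 := hyJ 0 h0J
  have hcl0 : ∀ j : Fin r, j.succ ∈ clA (Ah g v) J → we v x j = x (tc (g j)) := by
    intro j hj
    obtain ⟨c, hc⟩ := (mem_clA _ _ _).1 hj
    have h3 := combA_zero _ hc x hyJ
    rw [yA_s, hy0] at h3
    linarith
  have hcl1 : ∀ j : Fin r, j.succ ∉ clA (Ah g v) J → x (tc (g j)) < we v x j := by
    intro j hj
    have h3 := h2 j.succ (fun c hc => hj ((mem_clA _ _ _).2 ⟨c, hc⟩))
    rw [yA_s, hy0] at h3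
    linarith
  have hm1 : ∀ k, j1 k ∈ minSetG g v σ := by
    intro k
    rw [mem_minSetG, (hj1 k).1]
    exact fun ρ hρ => (hord k ρ hρ).symm
  have hT : ∀ k, x (tc k) = ∑ ρ ∈ σ, y ρ * (ordG g v k ρ : ℝ) := by
    intro k
    refine le_antisymm ?_ ?_
    · have h3 := (heq (j1 k)).1 (hm1 k)
      rw [(hj1 k).1] at h3
      rw [← h3]
      by_cases hj : (j1 k).succ ∈ clA (Ah g v) J
      · have h4 := hcl0 _ hj
        rw [(hj1 k).1] at h4
        exact h4.symm.le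
      · have h4 := hcl1 _ hj
        rw [(hj1 k).1] at h4
        exact h4.le
    · obtain ⟨j2, hj2, hj2k⟩ := hJ k
      have h3 := hcl0 j2 (sub_clA _ J hj2)
      rw [hj2k] at h3
      rw [← h3]
      have h4 := hge j2
      rw [hj2k] at h4
      exact h4
  have hx0s : x 0 = ∑ ρ ∈ σ, y ρ * ∑ k, (ordG g v k ρ : ℝ) := by
    rw [yA_0] at hy0
    have h3 : x 0 = ∑ k, x (tc k) := by linarith
    rw [h3]
    simp only [hT, Finset.mul_sum]
    rw [Finset.sum_comm]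
  refine ⟨σ, hσ, ⟨?_, ?_⟩, (rgH_iff g v Θ σ a).2 ⟨fun ρ => y ρ, fun ρ => hy ρ ρ.2, ?_⟩⟩
  · ext l
    rcases Fin.eq_zero_or_eq_succ l with h0 | ⟨j, hj⟩
    · subst h0
      exact iff_of_true (zero_mem_Jh _) (sub_clA _ J h0J)
    · subst hj
      unfold mH
      rw [succ_mem_Jh, heq j, ← hT]
      constructor
      · intro h
        by_contra hj
        exact absurd h (hcl1 j hj).ne'
      · exact hcl0 j
  · by_contra hcon
    unfold NZ at hcon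
    push Not at hcon
    rw [hx0s] at hx0
    have h3 : ∑ ρ ∈ σ, y ρ * ∑ k, (ordG g v k ρ : ℝ) = 0 := by
      refine Finset.sum_eq_zero fun ρ hρ => ?_
      rw [Finset.sum_eq_zero, mul_zero]
      intro k _
      rw [hcon ρ hρ k]
      simp
    rw [h3] at hx0
    exact lt_irrefl 0 hx0
  · rw [Finset.sum_coe_sort σ (fun ρ => y ρ • rhoHR g v ρ)]
    funext i
    rw [Finset.sum_apply]
    refine coords_cases (p := fun i => x i = ∑ ρ ∈ σ, (y ρ • rhoHR g v ρ) i) ?_ ?_ ?_ i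
    · rw [hx0s]
      refine Finset.sum_congr rfl fun ρ _ => ?_
      rw [Pi.smul_apply, smul_eq_mul]
      unfold rhoHR
      rw [rhoH_zero]
      push_cast
      rfl
    · intro k
      rw [hT k]
      refine Finset.sum_congr rfl fun ρ _ => ?_
      rw [Pi.smul_apply, smul_eq_mul]
      unfold rhoHR
      rw [rhoH_tc]
      simp
    · intro l
      rw [hw' l]
      refine Finset.sum_congr rfl fun ρ _ => ?_
      rw [Pi.smul_apply, smul_eq_mul]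
      unfold rhoHR
      rw [rhoH_wc]
      simp

open Classical in
lemma limH_eq (R : SmoothFan N) (hPr : PrincipalG g v R) (h0J : (0 : Fin (r+1)) ∈ J)
    (hJ : ∀ k, ∃ j, j.succ ∈ J ∧ g j = k) {κ : ℝ} (hA : AdaptA (Ah g v) J d Θ κ)
    (K α0 : ℝ) (hK : 0 < K) (hα : 0 < α0)
    (θ : Fin (r+1) → ℝ) (hAdm : AdmA (Ah g v) θ J) (lam : Fin (P+1+N+1) → ℝ)
    (a : Fin d → ℝ) : limGA (Ah g v) θ lam (bh K α0) J (Θ (0, a)) =
      ∑ σ ∈ R.cones.filter (PCH g v J),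
        (rgH g v Θ σ).indicator (fun a => wt lam (Θ (0, a))) a := by
  have h0 : limGA (Ah g v) θ lam (bh K α0) J (Θ (0, a)) =
      if CondA (Ah g v) (bh K α0) J (Θ (0, a)) then wt lam (Θ (0, a)) else 0 := by
    unfold limGA
    exact if_congr ⟨fun h => h.1, fun h => ⟨h, hAdm⟩⟩ rfl rfl
  rw [h0]
  split_ifs with h
  · obtain ⟨σ, hσ, hP, ha⟩ := rgH_of_cond g v Θ R hPr h0J hJ hA K α0 hK a h
    rw [Finset.sum_eq_single_of_mem σ (Finset.mem_filter.2 ⟨hσ, hP⟩), Set.indicator_of_mem ha]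
    intro σ' hσ' hne
    rw [Set.indicator_of_notMem]
    intro ha'
    exact hne (rgH_disj g v Θ R σ' σ (Finset.mem_filter.1 hσ').1 hσ a ha' ha)
  · symm
    refine Finset.sum_eq_zero fun σ hσ => ?_
    rw [Set.indicator_of_notMem]
    intro ha
    exact h (condH_of_rg g v Θ K α0 hα σ (Finset.mem_filter.1 hσ).2 a ha)

end cond

/-! ### Integrals over cones -/

lemma lmw_0 (s : ℝ) (η : Fin (P+1) → ℝ) : lmw (N := P+1+N) s (wh η) 0 = s := rfl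

lemma lmw_tc (s : ℝ) (η : Fin (P+1) → ℝ) (k : Fin (P+1)) :
    lmw (N := P+1+N) s (wh η) (tc k) = η k := by
  unfold lmw wh tc
  rw [Fin.cons_succ, Fin.append_left]

lemma lmw_wc (s : ℝ) (η : Fin (P+1) → ℝ) (i : Fin N) :
    lmw (N := P+1+N) s (wh η) (wco i) = 1 := by
  unfold lmw wh wco
  rw [Fin.cons_succ, Fin.append_right]

lemma lam_rhoH (g : Fin r → Fin (P+1)) (v : Fin r → Fin N → ℕ) (η : Fin (P+1) → ℝ) (s : ℝ)
    (ρ : Fin N → ℕ) : ∑ i, lmw s (wh η) i * rhoHR g v ρ i = kT g v η s ρ := by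
  rw [sum_coords]
  simp only [lmw_0, lmw_tc, lmw_wc]
  unfold rhoHR kT
  simp only [rhoH_zero, rhoH_tc, rhoH_wc]
  push_cast
  simp only [mul_add, Finset.sum_add_distrib, ← Finset.sum_mul, one_mul]
  have h : ∑ k, η k * (ordG g v k ρ : ℝ) = ∑ k, (ordG g v k ρ : ℝ) * η k :=
    Finset.sum_congr rfl fun k _ => mul_comm _ _
  rw [h]
  ring

lemma kT_pos (g : Fin r → Fin (P+1)) (v : Fin r → Fin N → ℕ) (R : SmoothFan N)
    (η : Fin (P+1) → ℝ) (hη : ∀ k, 0 < η k) (s : ℝ) (hs : 0 < s)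
    (σ : Finset (Fin N → ℕ)) (hσ : σ ∈ R.cones) (ρ : Fin N → ℕ) (hρ : ρ ∈ σ) :
    0 < kT g v η s ρ := by
  have h1 : 0 < ∑ l, ρ l := rho_pos R σ hσ ρ hρ
  unfold kT
  refine add_pos_of_nonneg_of_pos ?_ (by exact_mod_cast h1)
  exact Finset.sum_nonneg fun k _ => mul_nonneg (Nat.cast_nonneg _) (by linarith [hη k])

lemma wt_coneH (g : Fin r → Fin (P+1)) (v : Fin r → Fin N → ℕ) (η : Fin (P+1) → ℝ) (s : ℝ)
    (σ : Finset (Fin N → ℕ)) (c : σ → ℝ) :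
    wt (lmw s (wh η)) (∑ ρ : σ, c ρ • rhoHR g v (ρ : Fin N → ℕ)) =
      ∏ ρ : σ, ((Real.exp (-kT g v η s ρ * c ρ) : ℝ) : ℂ) := by
  unfold wt
  rw [← Complex.ofReal_prod, ← Complex.ofReal_prod, ← Real.exp_sum, ← Real.exp_sum]
  congr 2
  simp only [Finset.sum_apply, Pi.smul_apply, smul_eq_mul, Finset.mul_sum]
  rw [Finset.sum_comm]
  refine Finset.sum_congr rfl fun ρ _ => ?_
  rw [← lam_rhoH, neg_mul, Finset.sum_mul, ← Finset.sum_neg_distrib]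
  exact Finset.sum_congr rfl fun i _ => by ring

lemma cone_valH (g : Fin r → Fin (P+1)) (v : Fin r → Fin N → ℕ) (R : SmoothFan N)
    (η : Fin (P+1) → ℝ) (hη : ∀ k, 0 < η k) (s : ℝ) (hs : 0 < s)
    (σ : Finset (Fin N → ℕ)) (hσ : σ ∈ R.cones) :
    ∫ c in {c : σ → ℝ | ∀ ρ, 0 < c ρ},
        wt (lmw s (wh η)) (∑ ρ : σ, c ρ • rhoHR g v (ρ : Fin N → ℕ)) =
      ∏ ρ ∈ σ, ((kT g v η s ρ : ℝ) : ℂ)⁻¹ := by
  simp only [wt_coneH]
  have h : {c : σ → ℝ | ∀ ρ, 0 < c ρ} = Set.univ.pi fun _ => Ioi 0 := by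
    ext c; simp
  rw [h, volume_pi, Measure.restrict_pi_pi,
    integral_fintype_prod_eq_prod (fun (ρ : σ) t => ((Real.exp (-kT g v η s ρ * t) : ℝ) : ℂ))]
  rw [← Finset.prod_coe_sort σ]
  refine Finset.prod_congr rfl fun ρ _ => ?_
  rw [exp_int _ (kT_pos g v R η hη s hs σ hσ ρ ρ.2)]

/-- the limit for `J` -/
noncomputable def limJH (g : Fin r → Fin (P+1)) (v : Fin r → Fin N → ℕ) (θ : Fin (r+1) → ℝ)
    (R : SmoothFan N) (η : Fin (P+1) → ℝ) (J : Finset (Fin (r+1))) (s : ℝ) : ℂ :=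
  open Classical in
  ∑ σ ∈ R.cones, if J ⊆ mH g v σ ∧ σ.card + J.card = P + 1 + N + 1 ∧ NZ g v σ ∧
      AdmA (Ah g v) θ J then
    (idxA (Ah g v) J : ℂ)⁻¹ * ∏ ρ ∈ σ, ((kT g v η s ρ : ℝ) : ℂ)⁻¹ else 0

theorem valH (g : Fin r → Fin (P+1)) (v : Fin r → Fin N → ℕ) (θ : Fin (r+1) → ℝ)
    (R : SmoothFan N) (hPr : PrincipalG g v R)
    (η : Fin (P+1) → ℝ) (hη : ∀ k, 0 < η k) (K α0 : ℝ) (hK : 0 < K) (hα : 0 < α0)
    (s : ℝ) (hs : 0 < s)
    (J : Finset (Fin (r+1))) (hI : IndA (Ah g v) J) (h0J : (0 : Fin (r+1)) ∈ J)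
    (hJ : ∀ k, ∃ j, j.succ ∈ J ∧ g j = k) (d : ℕ)
    (Θ : ((J → ℝ) × (Fin d → ℝ)) ≃ₗ[ℝ] (Fin (P+1+N+1) → ℝ)) (κ : ℝ)
    (hA : AdaptA (Ah g v) J d Θ κ)
    (hF : ∀ σ ∈ R.cones, J ⊆ mH g v σ → σ.card + J.card = P + 1 + N + 1 →
      ∀ F : (Fin (P+1+N+1) → ℝ) → ℂ,
        (κ : ℂ) * (idxA (Ah g v) J : ℂ) * ∫ a in rgH g v Θ σ, F (Θ (0, a)) =
          ∫ c in {c : σ → ℝ | ∀ ρ, 0 < c ρ}, F (∑ ρ : σ, c ρ • rhoHR g v (ρ : Fin N → ℕ)))
    (hidx : idxA (Ah g v) J ≠ 0) :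
    (κ : ℂ) * ∫ a, limGA (Ah g v) θ (lmw s (wh η)) (bh K α0) J (Θ (0, a)) =
      limJH g v θ R η J s := by
  classical
  by_cases hAdm : AdmA (Ah g v) θ J
  swap
  · have h1 : ∀ a, limGA (Ah g v) θ (lmw s (wh η)) (bh K α0) J (Θ (0, a)) = 0 := by
      intro a
      unfold limGA
      rw [if_neg]
      rintro ⟨-, h⟩
      exact hAdm h
    simp only [h1, integral_zero, mul_zero]
    symm
    unfold limJH
    refine Finset.sum_eq_zero fun σ _ => ?_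
    rw [if_neg]
    rintro ⟨-, -, -, h⟩
    exact hAdm h
  have hdim := hA.dim
  have hidx' : (idxA (Ah g v) J : ℂ) ≠ 0 := by exact_mod_cast hidx
  have hval : ∀ σ ∈ R.cones, J ⊆ mH g v σ → σ.card + J.card = P + 1 + N + 1 →
      (κ : ℂ) * ∫ a in rgH g v Θ σ, wt (lmw s (wh η)) (Θ (0, a)) =
      (idxA (Ah g v) J : ℂ)⁻¹ * ∏ ρ ∈ σ, ((kT g v η s ρ : ℝ) : ℂ)⁻¹ := by
    intro σ hσ h1 h2
    have h3 := hF σ hσ h1 h2 (wt (lmw s (wh η)))
    rw [cone_valH g v R η hη s hs σ hσ] at h3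
    rw [← h3]
    field_simp
  have hint : ∀ σ ∈ R.cones.filter (PCH g v J), Integrable
      ((rgH g v Θ σ).indicator (fun a => wt (lmw s (wh η)) (Θ (0, a)))) := by
    intro σ hσ
    obtain ⟨hσ, hP⟩ := Finset.mem_filter.1 hσ
    rw [integrable_indicator_iff (rgH_meas g v Θ R hA σ hσ hP.sub)]
    have hle := cardH_le g v Θ R hA σ hσ hP.sub
    rcases hle.lt_or_eq with hlt | heq
    · rw [IntegrableOn, Measure.restrict_eq_zero.2 (rgH_null g v Θ hA σ hP.sub hlt)]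
      exact integrable_zero_measure
    · by_contra hcon
      have h3 := hval σ hσ hP.sub (by omega)
      rw [integral_undef hcon, mul_zero] at h3
      have h4 : (idxA (Ah g v) J : ℂ)⁻¹ * ∏ ρ ∈ σ, ((kT g v η s ρ : ℝ) : ℂ)⁻¹ ≠ 0 := by
        refine mul_ne_zero (inv_ne_zero hidx') (Finset.prod_ne_zero_iff.2 fun ρ hρ => inv_ne_zero ?_)
        exact_mod_cast (kT_pos g v R η hη s hs σ hσ ρ hρ).ne'
      exact h4 h3.symm
  simp only [limH_eq g v Θ R hPr h0J hJ hA K α0 hK hα θ hAdm]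
  rw [integral_finsetSum _ hint, Finset.mul_sum, Finset.sum_filter]
  unfold limJH
  refine Finset.sum_congr rfl fun σ hσ => ?_
  by_cases hP : PCH g v J σ
  · rw [if_pos hP, integral_indicator (rgH_meas g v Θ R hA σ hσ hP.sub)]
    have hle := cardH_le g v Θ R hA σ hσ hP.sub
    rcases hle.lt_or_eq with hlt | heq
    · rw [if_neg (fun h => by have := h.2.1; omega),
        Measure.restrict_eq_zero.2 (rgH_null g v Θ hA σ hP.sub hlt), integral_zero_measure, mul_zero]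
    · rw [if_pos ⟨hP.sub, by omega, hP.2, hAdm⟩]
      exact hval σ hσ hP.sub (by omega)
  · rw [if_neg hP, if_neg]
    rintro ⟨h1, h2, h3, -⟩
    exact hP ⟨Finset.Subset.antisymm (mH_sub_cl g v R J hI σ hσ h1 h2) (clH_sub g v J σ h1), h3⟩

/-! ### the frame -/

lemma exists_frameH (g : Fin r → Fin (P+1)) (v : Fin r → Fin N → ℕ) (R : SmoothFan N)
    (J : Finset (Fin (r+1))) (σ : Finset (Fin N → ℕ)) (hσ : σ ∈ R.cones)
    (hcard : σ.card + J.card = P + 1 + N + 1) :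
    ∃ (Bm : Matrix (Fin (P+1+N+1)) (Fin (P+1+N+1)) ℤ) (ε : J ⊕ σ ≃ Fin (P+1+N+1)),
      IsUnit Bm.det ∧ ∀ ρ : σ, Bm (ε (Sum.inr ρ)) = rhoH g v ρ := by
  classical
  obtain ⟨B, hB, hrow⟩ := R.smooth σ hσ
  choose i hi using fun ρ : σ => hrow ρ ρ.2
  have hinj : Function.Injective i := by
    intro ρ ρ' h
    apply Subtype.ext
    funext l
    have h1 := hi ρ l
    have h2 := hi ρ' l
    rw [h, h2] at h1
    exact_mod_cast h1.symm
  set q0 : Fin N → ℤ := Function.extend i (fun ρ : σ => ∑ k, (ordG g v k ρ : ℤ)) 0 with hq0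
  set q : Fin N → Fin (P+1) → ℤ := Function.extend i
    (fun ρ : σ => fun k : Fin (P+1) => (ordG g v k ρ : ℤ)) 0 with hq
  set f : σ → Fin (P+1+N+1) := fun ρ => wco (i ρ) with hf
  have hfinj : Function.Injective f := fun a b h => hinj (wco_inj h)
  have hc : Fintype.card J = Fintype.card ((Set.range f)ᶜ : Set (Fin (P+1+N+1))) := by
    rw [Fintype.card_compl_set, Fintype.card_fin, Set.card_range_of_injective hfinj,
      Fintype.card_coe, Fintype.card_coe]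
    omega
  let eJ : J ≃ ((Set.range f)ᶜ : Set (Fin (P+1+N+1))) := Fintype.equivOfCardEq hc
  let ε : J ⊕ σ ≃ Fin (P+1+N+1) := (Equiv.sumComm _ _).trans
    ((Equiv.sumCongr (Equiv.ofInjective f hfinj) eJ).trans (Equiv.Set.sumCompl _))
  refine ⟨BG B q0 q, ε, BG_unit B hB q0 q, fun ρ => ?_⟩
  have h1 : ε (Sum.inr ρ) = wco (i ρ) := rfl
  rw [h1, BG_wc, rhoH]
  have e1 : q0 (i ρ) = ∑ k, (ordG g v k ρ : ℤ) := by rw [hq0, hinj.extend_apply]
  have e2 : q (i ρ) = fun k : Fin (P+1) => (ordG g v k ρ : ℤ) := by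
    rw [hq, hinj.extend_apply]
  have e3 : B (i ρ) = fun l => ((ρ : Fin N → ℕ) l : ℤ) := funext fun l => hi ρ l
  rw [e1, e2, e3]

lemma mulVec_rhoH (g : Fin r → Fin (P+1)) (v : Fin r → Fin N → ℕ) (J : Finset (Fin (r+1)))
    (σ : Finset (Fin N → ℕ)) (hJ : J ⊆ mH g v σ) (ρ : σ) :
    (AJ (Ah g v) J).mulVec (rhoH g v ρ) = 0 := by
  funext j
  have h1 := (mem_mH g v σ j).1 (hJ j.2) ρ ρ.2
  unfold yA rhoHR at h1
  have h2 : (((AJ (Ah g v) J).mulVec (rhoH g v ρ) j : ℤ) : ℝ) = 0 := by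
    rw [← h1]
    simp only [Matrix.mulVec, dotProduct, AJ]
    push_cast
    rfl
  exact_mod_cast h2

/-- the convergence -/
lemma conv_H (g : Fin r → Fin (P+1)) (v : Fin r → Fin N → ℕ) (θ : Fin (r+1) → ℝ)
    (hθ : LinearIndependent ℚ θ)
    (R : SmoothFan N) (hPr : PrincipalG g v R)
    (η : Fin (P+1) → ℝ) (hη : ∀ k, 0 < η k) (K α0 : ℝ) (hK : 0 < K) (hα : 0 < α0)
    (s : ℝ) (hs : 0 < s)
    (J : Finset (Fin (r+1))) (hidx : idxA (Ah g v) J ≠ 0) (h0J : (0 : Fin (r+1)) ∈ J)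
    (hJ : ∀ k, ∃ j, j.succ ∈ J ∧ g j = k) :
    Tendsto (fun m : ℕ => ∫ x, integA (Ah g v) θ (lmw s (wh η)) (bh K α0) J m x
        ∂(Measure.pi (ms (∅ : Finset (Fin (P+1+N+1)))))) atTop (𝓝 (limJH g v θ R η J s)) := by
  have hI := indA_of_idx (Ah g v) J hidx
  obtain ⟨d, Θ, κ, hA, hF⟩ := c1 (Ah g v) J hI
  rw [← valH g v θ R hPr η hη K α0 hK hα s hs J hI h0J hJ d Θ κ hA ?_ hidx]
  · refine limA (Ah g v) θ hθ (lmw s (wh η)) ?_ (bh K α0) ?_ J d Θ κ hA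
    · intro i
      refine coords_cases (p := fun i => 0 < lmw (N := P+1+N) s (wh η) i) ?_ ?_ ?_ i
      · rw [lmw_0]; exact hs
      · intro k
        rw [lmw_tc]; exact hη k
      · intro i
        rw [lmw_wc]; exact one_pos
    · intro i
      refine coords_cases (p := fun i => bh (N := N) (P := P) K α0 i ≠ 0) ?_ ?_ ?_ i
      · rw [bh_zero]; linarith
      · intro k
        rw [bh_tc]; exact hα.ne'
      · intro i
        rw [bh_wc]; exact one_ne_zero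
  · intro σ hσ hJσ hcard F
    obtain ⟨Bm, ε, hB, hε⟩ := exists_frameH g v R J σ hσ hcard
    exact hF σ (fun ρ => rhoH g v ρ) Bm ε hB hε (fun ρ => mulVec_rhoH g v J σ hJσ ρ) F

theorem lim_of (h : TaskIdx) : TaskLim := by
  classical
  intro r N P g v θ θ0 hθ _ R hPr η hη J hidx hJ K hK α0 hα s hs
  obtain ⟨hi, hadm⟩ := h g v J
  have h1 := conv_H g v (Fin.cons θ0 θ) hθ R hPr η hη K α0 hK hα s hs (Jh J)
    (by rw [hi]; exact hidx) (zero_mem_Jh J) (fun k => by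
      obtain ⟨j, hj, hjk⟩ := hJ k
      exact ⟨j, (succ_mem_Jh J j).2 hj, hjk⟩)
  have h2 : limJH g v (Fin.cons θ0 θ) R η (Jh J) s = limT g v θ R η J s := by
    unfold limJH limT
    refine Finset.sum_congr rfl fun σ _ => ?_
    have hsub : Jh J ⊆ mH g v σ ↔ J ⊆ minSetG g v σ := by
      constructor
      · intro h3 j hj
        have h4 := h3 ((succ_mem_Jh J j).2 hj)
        unfold mH at h4
        exact (succ_mem_Jh _ j).1 h4
      · exact fun h3 => Jh_mono h3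
    have hcd : σ.card + (Jh J).card = P + 1 + N + 1 ↔ σ.card + J.card = P + N + 1 := by
      rw [card_Jh]
      omega
    rw [hi]
    refine if_congr ?_ rfl rfl
    rw [hsub, hcd, hadm θ θ0]
    rfl
  rw [← h2]
  exact h1

end Pool.Agent.W67.NC
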